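import Pool.Agent.U365.POW.J
import Pool.Agent.Results.MP_4a0cc8_nt.MultiplicativeValues

/-!
# No congruences with a given curve for the invariants with height near `s(m)`, `m - φ(m)` or `α m + β f(m)`

Let `s(m)` be the sum of the proper divisors of `m`, let `n` be the degree of the number fields considered and `ε > 0`. There is a
number `n₀`, which depends on `n` and `ε` only, with the following property: for every function `G` with steps bounded below by a
positive constant and growth at most `v ^ D`, every `θ ≥ 0` with `e = D ε + θ < 1`, EVERY number field `K` of degree `n` and EVERY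
elliptic curve `E₀ : y² = x³ + A₀x + B₀`, `A₀`, `B₀` in the integers of `K`: for a set of `m` of lower density at least `1 - e`, NO
elliptic curve `E` over `K` for which the height of the invariant satisfies `|H(j(E)) - G (s(m))| ≤ s(m) ^ θ` is congruent to `E₀`
modulo some `k ≥ n₀`; and the same holds for `m - φ(m)`. More precisely this holds for almost all `m` with a divisor
`≥ m ^ (e + ρ)` which is a prime or the product of two different primes, and for the values `g = α m + β f(m)` of multiplicative
functions with `f p = p + c` at the primes, uniformly in `|α|, |β| ≤ N ^ δ` and with a power saving in the number of the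
exceptional `m`.

Proof. The number of the invariants of the partners is bounded by the starting theorem `FewPartnersAllLevels` of this problem (in
the form `partners_count` of the starting file `PartnerWindows`). Let `m = k v p` with large primes `p ≠ v`. Then
`g = A v p + B (v + p) + B c`, `A = α k + β f(k)`, `B = β c f(k)`, and so `(A v + B) (A p + B) = A g + B² - A B c`: for given `g`,
`k`, `α`, `β` there are only `N^o(1)` possibilities for `p` and `v`.

If the exponent `e` is smaller than `1/2`, no divisor is needed: the property holds for almost all `m` (for all `m ≤ N` but at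
most `N / (log N) ^ A`, for every `A`), for all `α ≠ 0`, `β`. Here we use the divisors `D` of `m` without small prime factors:
`α m` is congruent to `g` modulo `f(D)`; if the size of all such `D` is inconvenient, then `m = R D` where the prime factors of
`D` are so large that `D` lies in a short interval which is given by `R` and `g`.
-/

set_option autoImplicit false

open NumberField

namespace Pool.Agent.Results.MP_4a0cc8_nt.AliquotValues

open FewPartnersAllLevels (Congruent jInvariant)
open Pool.Agent.U365.POW (Law law_set law_mono)
open Pool.Agent.N733.TG (Expanding)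
open PartnerWindows (Partners partners_count)

/-- NO elliptic curve `E : y² = x³ + Ax + B` over `K` with `|H(j(E)) - G g| ≤ g ^ θ` satisfies `E[k] ≅ E₀[k]` for some
`k ≥ n₀`, where `E₀ : y² = x³ + A₀x + B₀`. -/
def Near {K : Type} [Field K] [NumberField K] (n₀ : ℕ) (A₀ B₀ : K) (G : ℕ → ℝ) (θ : ℝ) (g : ℕ) : Prop :=
  ∀ A B : K, 4 * A ^ 3 + 27 * B ^ 2 ≠ 0 → |Height.mulHeight₁ (jInvariant A B) - G g| ≤ (g : ℝ) ^ θ →
    ∀ k : ℕ, n₀ ≤ k → ¬ Congruent k A B A₀ B₀

/-- **Theorem.** For all `n` and `ε > 0` there is `n₀` such that for all `G` with steps `≥ a > 0` and growth at most `v^D`, all `θ ≥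
0` with `e = D ε + θ < 1`, all number fields `K` of degree `n` and all elliptic curves `E₀ : y² = x³ + A₀x + B₀` with `A₀`, `B₀`
integral: the property `Near` holds for the values of similar functions as the aliquot sum with the exponent `e` (`Law`): if
this exponent is smaller than `1/2`, then (1) for ALL `α m + β f(m)` at almost all `m`, and so for `s(m)` and `m - φ(m)` for
almost all `m`; in general, (2) at almost all the `m` with a divisor `≥ m ^ (e + ρ)` which is a prime or the product of two
different primes, and for `s(m)` and `m - φ(m)` for a set of `m` of lower density at least `1 - (e)`. -/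
theorem result : ∀ (n : ℕ) (ε : ℝ), 0 < ε → ∃ n₀ : ℕ, ∀ (G : ℕ → ℝ) (D θ : ℝ), Expanding G D → 0 ≤ θ → D * ε + θ < 1 →
      ∀ (K : Type) [Field K] [NumberField K], Module.finrank ℚ K = n → ∀ A₀ B₀ : 𝓞 K, 4 * A₀ ^ 3 + 27 * B₀ ^ 2 ≠ 0 →
        Law (D * ε + θ) (Near n₀ (A₀ : K) (B₀ : K) G θ) := by
  intro n ε hε0
  obtain ⟨n₀, h⟩ := partners_count n ε hε0
  refine ⟨n₀, fun G D θ hG hθ h1 K _ _ hK A₀ B₀ h0 => ?_⟩
  obtain ⟨C, hC, h'⟩ := h K hK A₀ B₀ h0
  have a := law_set (Partners n₀ (A₀ : K) (B₀ : K)) (fun x => Height.mulHeight₁ x) hG (s := ε) (κ := θ)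
    hε0.le hθ h1 (fun η hη => by
      refine ⟨C, fun X hX => ⟨(h' X hX).1, (h' X hX).2.trans ?_⟩⟩
      apply mul_le_mul_of_nonneg_left _ hC
      exact Real.rpow_le_rpow_of_exponent_le hX (by linarith))
  have hm : ∀ g : ℕ, (∀ t : K, |Height.mulHeight₁ t - G g| ≤ (g : ℝ) ^ θ → t ∉ Partners n₀ (A₀ : K) (B₀ : K)) →
      Near n₀ (A₀ : K) (B₀ : K) G θ g := by
    intro g hg A B hAB hw k hk hcon
    exact hg (jInvariant A B) hw ⟨A, B, hAB, rfl, k, hk, hcon⟩
  exact law_mono a hm

end Pool.Agent.Results.MP_4a0cc8_nt.AliquotValues
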