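import Pool.Agent.U985.FM.Core
import Pool.Agent.U985.FM.Num

/-!
# Congruences with a fixed elliptic curve over `ℚ`: `n ≤ C N^0.3452` for all integers `n`

Let `E₀` be a fixed elliptic curve over `ℚ`, and let `E` run through all elliptic curves over `ℚ` which are
not isogenous to `E₀`; let `N` be the conductor of `E`.  The only known way to bound all integers `n` with
`E[n] ≅ E₀[n]` is to find a small prime `p` with `a_p(E) ≠ a_p(E₀)`; the Rankin-Selberg method (or the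
bound of Sturm) gives `p ≪ N^(1+ε)`, hence `n ≪ N^(1/2+ε)`.  We prove `p ≪ N^θ` for every
`θ > exp (-1 / (1 + 2 κ))`, where `κ` is the mean value of `|a_p(E₀)| / √p`, that is `8 / (3 π)` if `E₀` has no
complex multiplication and `2 / π` if it has.  Hence

* `n ≤ C N^0.3452` if `E₀` has no complex multiplication, `n ≤ C N^0.3221` if it has,

for all `n ≥ 1`, with `C` depending only on `E₀`; in other words the conductor of every `E` which is congruent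
to `E₀` modulo `n` and not isogenous to `E₀` is at least `c n^2.896` (and `c n^3.104`).

Proof: if `a_p(E) = a_p(E₀)` for all `p ≤ P`, then the coefficients of `L(s, f × f₀)` and of `L(s, f₀ × f₀)`
agree at all integers composed of primes `≤ P`; the latter are nonnegative and their smoothed sum has a
positive limit, because `f₀` is FIXED, while the smoothed sum of the former at `z ≥ N^(1+ε)` is nearly `0`.  The
difference comes from the integers with exactly one prime factor `p > P`, and is at most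
`∑_{P < p ≤ z} (λ(p)² + 2 |λ(p)|) / p → (1 + 2 κ) log (log z / log P)` times the limit.
-/

set_option autoImplicit false

open Filter Topology
open scoped Classical
open Pool.Agent.U985.FM

namespace Pool.Agent.Results.MP_4a0cc8_nt.ConductorExponent

/-- The curve `y² = x³ + Ax + B` over `ℚ`. -/
def curve (A B : ℤ) : WeierstrassCurve ℚ := ⟨0, 0, 0, A, B⟩

/-- The group of its points over the algebraic closure of `ℚ`. -/
abbrev Points (A B : ℤ) : Type := ((curve A B).baseChange (AlgebraicClosure ℚ)).toAffine.Point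

/-- The action of an automorphism `σ` of the algebraic closure on the points. -/
noncomputable def galois (A B : ℤ) (σ : AlgebraicClosure ℚ ≃ₐ[ℚ] AlgebraicClosure ℚ) : Points A B →+ Points A B :=
  WeierstrassCurve.Affine.Point.map (σ : AlgebraicClosure ℚ →ₐ[ℚ] AlgebraicClosure ℚ)

/-- The `n`-torsion of `y² = x³ + Ax + B` and that of `y² = x³ + A'x + B'` are isomorphic as Galois modules. -/
def Congruent (n : ℕ) (A B A' B' : ℤ) : Prop :=
  ∃ f : Points A B → Points A' B', (∀ P Q, n • P = 0 → n • Q = 0 → f (P + Q) = f P + f Q) ∧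
    Set.BijOn f {P | n • P = 0} {Q | n • Q = 0} ∧
    ∀ (σ : AlgebraicClosure ℚ ≃ₐ[ℚ] AlgebraicClosure ℚ) (P : Points A B), n • P = 0 →
      f (galois A B σ P) = galois A' B' σ (f P)

/-- `y² = x³ + Ax + B` is isogenous to `y² = x³ + A'x + B'` over `ℚ`: the function field of the second embeds
into that of the first. -/
def Isogenous (A B A' B' : ℤ) : Prop :=
  Nonempty (FractionRing (curve A' B').toAffine.CoordinateRing →ₐ[ℚ]
    FractionRing (curve A B).toAffine.CoordinateRing)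

/-- The primes which do not divide `6 (4 A³ + 27 B²)` are the good ones of the model. -/
def bad (A B : ℤ) : ℤ := 6 * (4 * A ^ 3 + 27 * B ^ 2)

/-- `y² = x³ + Ax + B` is an elliptic curve and no prime `p` has `p⁴ ∣ A` and `p⁶ ∣ B`: every elliptic curve over
`ℚ` has such a model. -/
def Minimal (A B : ℤ) : Prop := 4 * A ^ 3 + 27 * B ^ 2 ≠ 0 ∧ ∀ p : ℕ, p.Prime → (p : ℤ) ^ 4 ∣ A → ¬ (p : ℤ) ^ 6 ∣ B

/-- The trace of Frobenius `a_p = - ∑ ((x³ + Ax + B) / p)`, the sum over `x` modulo `p`. -/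
def trace (A B : ℤ) (p : ℕ) : ℤ := -∑ x ∈ Finset.range p, jacobiSym ((x : ℤ) ^ 3 + A * x + B) p

/-- The normalised trace `λ(p) = a_p / √p` at the good primes (and `0` elsewhere). -/
noncomputable def lam (A B : ℤ) (p : ℕ) : ℝ :=
  if p.Prime ∧ ¬ (p : ℤ) ∣ bad A B then (trace A B p : ℝ) / √p else 0

/-- The Rankin-Selberg series `L(s, f × f')` of the two curves without the Euler factors at the primes of `D`: the
sum over the integers `m ≥ 1` prime to `D` of the coefficients `rs`, which are multiplicative and at `p ^ k` are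
equal to `∑_j λ(p^(k-2j)) λ'(p^(k-2j))` (`hh`), where `λ(p^k)` (`cf`) is the Hecke eigenvalue. -/
noncomputable def rankin (A B A' B' : ℤ) (D : ℕ) (s : ℂ) : ℂ :=
  ∑' m : ℕ, (bs D (lam A B) (lam A' B') m : ℂ) * (m : ℂ) ^ (-s)

/-- Published facts about the fixed curve `E₀ : y² = x³ + A₀x + B₀` and all curves `E : y² = x³ + Ax + B` over
`ℚ`; `cond A B` is the conductor of `E`. -/
structure Facts (cond : ℤ → ℤ → ℕ) (A₀ B₀ : ℤ) (κ : ℝ) : Prop where
  /-- the conductor is positive -/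
  cond_pos : ∀ A B, Minimal A B → 1 ≤ cond A B
  /-- a prime `p ≥ 5` which divides the discriminant of the minimal model divides the conductor -/
  cond_bad : ∀ A B, Minimal A B → ∀ p : ℕ, p.Prime → (p : ℤ) ∣ bad A B → p ∣ 6 * cond A B
  /-- Hasse -/
  hasse : ∀ A B, ∀ p : ℕ, p.Prime → ¬ (p : ℤ) ∣ bad A B → |(trace A B p : ℝ)| ≤ 2 * √p
  /-- the characteristic polynomial of Frobenius on `E[n]` -/
  congruence : ∀ A B, Minimal A B → ∀ n : ℕ, Congruent n A B A₀ B₀ → ∀ p : ℕ, p.Prime →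
    ¬ (p : ℤ) ∣ n * bad A B * bad A₀ B₀ → (n : ℤ) ∣ trace A B p - trace A₀ B₀ p
  /-- `(s - 1) L(s, f₀ × f₀)` is entire, of polynomial growth in vertical strips and positive at `1` -/
  self : ∃ (G : ℂ → ℂ) (M T : ℝ), Differentiable ℂ G ∧
    (∀ s : ℂ, 1 < s.re → G s = (s - 1) * rankin A₀ B₀ A₀ B₀ (bad A₀ B₀).natAbs s) ∧
    (∀ s : ℂ, 3 / 4 ≤ s.re → s.re ≤ 6 → ‖G s‖ ≤ M * (1 + |s.im|) ^ T) ∧ 0 < (G 1).re
  /-- `λ₀(p)²` has the mean value `1` and `|λ₀(p)|` the mean value `κ` -/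
  mean : Tendsto (fun X : ℝ => (∑ p ∈ (Finset.Icc 1 ⌊X⌋₊).filter Nat.Prime,
    (2 * |lam A₀ B₀ p| + lam A₀ B₀ p ^ 2) * (Real.log p / p)) / Real.log X) atTop (𝓝 (1 + 2 * κ))
  /-- modularity, the continuation of `L(s, f × f₀)` and the convexity bound, if `E` and `E₀` are not isogenous -/
  pair : ∀ ε : ℝ, 0 < ε → ∃ M T : ℝ, ∀ A B, Minimal A B → ¬ Isogenous A B A₀ B₀ → ∀ D : ℕ, D ≠ 0 →
    (∀ p : ℕ, p.Prime → (p : ℤ) ∣ bad A B * bad A₀ B₀ → p ∣ D) → ∃ F : ℂ → ℂ, Differentiable ℂ F ∧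
      (∀ s : ℂ, 1 < s.re → F s = rankin A B A₀ B₀ D s) ∧
      ∀ s : ℂ, 1 / 2 + ε ≤ s.re → s.re ≤ 6 →
        ‖F s‖ ≤ M * (cond A B : ℝ) ^ (1 / 2 + ε) * (D : ℝ) ^ ε * (1 + |s.im|) ^ T

variable {cond : ℤ → ℤ → ℕ} {A₀ B₀ : ℤ} {κ : ℝ}

theorem abs_lam_le (h : Facts cond A₀ B₀ κ) (A B : ℤ) (p : ℕ) : |lam A B p| ≤ 2 := by
  unfold lam
  split_ifs with hp
  · have h1 := h.hasse A B p hp.1 hp.2
    have h2 : 0 < √(p : ℝ) := Real.sqrt_pos.2 (by exact_mod_cast hp.1.pos)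
    rw [abs_div, abs_of_pos h2, div_le_iff₀ h2]
    exact h1
  · simp

theorem mean_Ws (h : Facts cond A₀ B₀ κ) :
    Tendsto (fun t => Ws (lam A₀ B₀) t / t) atTop (𝓝 (1 + 2 * κ)) := by
  refine (h.mean.comp Real.tendsto_exp_atTop).congr fun t => ?_
  simp only [Function.comp_apply, Real.log_exp]
  rfl

/-- **the least prime which distinguishes `E` from `E₀`** -/
theorem least (h₀ : Minimal A₀ B₀) (hκ : 0 ≤ κ) (h : Facts cond A₀ B₀ κ) {θ : ℝ} (hθ0 : 1 / 2 < θ)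
    (hθ : Real.exp (-1 / (1 + 2 * κ)) < θ) {ε : ℝ} (hε : 0 < ε) :
    ∃ C : ℝ, 0 < C ∧ ∀ A B, Minimal A B → ¬ Isogenous A B A₀ B₀ → ∀ n : ℕ, 1 ≤ n →
      ∃ p : ℕ, p.Prime ∧ ¬ (p : ℤ) ∣ n * bad A B * bad A₀ B₀ ∧ trace A B p ≠ trace A₀ B₀ p ∧
        (p : ℝ) ≤ C * (cond A B : ℝ) ^ θ * (n : ℝ) ^ ε := by
  have hμ : (0 : ℝ) < 1 + 2 * κ := by linarith
  have hexp1 : Real.exp (-1 / (1 + 2 * κ)) < 1 := by
    rw [Real.exp_lt_one_iff]
    exact div_neg_of_neg_of_pos (by norm_num) hμ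
  -- a smaller exponent
  obtain ⟨θ₁, hlo, hhi⟩ := exists_between (max_lt (lt_min hθ0 (by norm_num : (1 : ℝ) / 2 < 1)) (lt_min hθ hexp1))
  have hθ₁0 : 1 / 2 < θ₁ := (le_max_left _ _).trans_lt hlo
  have hθ₁e : Real.exp (-1 / (1 + 2 * κ)) < θ₁ := (le_max_right _ _).trans_lt hlo
  have hθ₁θ : θ₁ < θ := hhi.trans_le (min_le_left _ _)
  have hθ₁1 : θ₁ < 1 := hhi.trans_le (min_le_right _ _)
  have hθ₁p : 0 < θ₁ := by linarith
  have hμθ : (1 + 2 * κ) * Real.log (1 / θ₁) < 1 := by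
    have h1 : -1 / (1 + 2 * κ) < Real.log θ₁ := (Real.lt_log_iff_exp_lt hθ₁p).2 hθ₁e
    rw [div_lt_iff₀ hμ] at h1
    rw [one_div, Real.log_inv]
    linarith
  -- the small parameter
  set ρ : ℝ := min (1 / 8) (min ((θ - θ₁) / 16) (ε / 16)) with hρ
  have hρ0 : 0 < ρ := lt_min (by norm_num) (lt_min (by linarith) (by linarith))
  have hρ1 : ρ ≤ 1 / 8 := min_le_left _ _
  have hρ2 : ρ ≤ (θ - θ₁) / 16 := (min_le_right _ _).trans (min_le_left _ _)
  have hρ3 : ρ ≤ ε / 16 := (min_le_right _ _).trans (min_le_right _ _)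
  obtain ⟨G, M₀, T₀, hG, hGe, hGg, hGp⟩ := h.self
  obtain ⟨M, T, hpair⟩ := h.pair ρ hρ0
  set N₀ : ℕ := (bad A₀ B₀).natAbs with hN₀
  have hb0 : bad A₀ B₀ ≠ 0 := by
    unfold bad
    exact mul_ne_zero (by norm_num) h₀.1
  have hN₀0 : N₀ ≠ 0 := Int.natAbs_ne_zero.2 hb0
  obtain ⟨C, hC, hcore⟩ := core (N₀ := N₀) hN₀0 (y := lam A₀ B₀) (abs_lam_le h A₀ B₀) hG
    (fun s hs => hGe s hs) hGg hGp hμ.le (mean_Ws h) hθ₁0 hθ₁1 hμθ (a := -(1 / 2) + ρ) (B := T) (ε := ρ)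
    (by linarith) (by linarith) hρ0
  set M₁ : ℝ := max M 1 with hM₁
  have hM₁1 : 1 ≤ M₁ := le_max_right _ _
  set e : ℝ := θ₁ / (-(-(1 / 2) + ρ)) with he
  have hden : 0 < -(-(1 / 2) + ρ) := by linarith
  have he0 : 0 < e := div_pos hθ₁p hden
  have he4 : e ≤ 4 := by
    rw [he, div_le_iff₀ hden]
    linarith
  have heN : (1 / 2 + ρ + 2 * ρ) * e ≤ θ := by
    rw [he, ← mul_div_assoc, div_le_iff₀ hden]
    have a1 : ρ * θ₁ ≤ ρ * 1 := mul_le_mul_of_nonneg_left hθ₁1.le hρ0.le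
    have a2 : ρ * (θ - θ₁) ≤ 1 / 8 * (θ - θ₁) := mul_le_mul_of_nonneg_right hρ1 (by linarith)
    linarith
  have heD : 2 * ρ * e ≤ ε := by
    have a1 : ρ * e ≤ ρ * 4 := mul_le_mul_of_nonneg_left he4 hρ0.le
    linarith
  set K : ℝ := M₁ * ((N₀ : ℝ) * 6) ^ (2 * ρ) with hK
  have hN₀1 : (1 : ℝ) ≤ N₀ := by exact_mod_cast Nat.pos_of_ne_zero hN₀0
  have hK1 : 1 ≤ K := by
    have : (1 : ℝ) ≤ ((N₀ : ℝ) * 6) ^ (2 * ρ) := Real.one_le_rpow (by linarith) (by linarith)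
    nlinarith
  refine ⟨2 * (C * K ^ e), by positivity, fun A B hm hi n hn => ?_⟩
  set N : ℕ := cond A B with hN
  have hN1 : (1 : ℝ) ≤ N := by exact_mod_cast h.cond_pos A B hm
  have hn1 : (1 : ℝ) ≤ n := by exact_mod_cast hn
  set D : ℕ := N₀ * (6 * N) * n with hD
  have hD0 : D ≠ 0 := by
    have : N ≠ 0 := by
      have := h.cond_pos A B hm
      omega
    have : n ≠ 0 := by omega
    positivity
  have hDdiv : ∀ p : ℕ, p.Prime → (p : ℤ) ∣ n * bad A B * bad A₀ B₀ → p ∣ D := by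
    intro p hp hd
    have hpi : Prime (p : ℤ) := Nat.prime_iff_prime_int.1 hp
    rcases hpi.dvd_or_dvd hd with h1 | h1
    · rcases hpi.dvd_or_dvd h1 with h2 | h2
      · exact (Int.natCast_dvd_natCast.1 h2).trans (dvd_mul_left _ _)
      · exact (h.cond_bad A B hm p hp h2).trans ((dvd_mul_left _ _).trans (dvd_mul_right _ _))
    · have h2 : p ∣ N₀ := Int.natCast_dvd.1 h1
      exact h2.trans ((dvd_mul_right _ _).trans (dvd_mul_right _ _))
  have hDdiv' : ∀ p : ℕ, p.Prime → (p : ℤ) ∣ bad A B * bad A₀ B₀ → p ∣ D := by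
    intro p hp hd
    refine hDdiv p hp ?_
    rw [mul_assoc]
    exact hd.trans (dvd_mul_left _ _)
  have hN₀D : N₀ ∣ D := (dvd_mul_right _ _).trans (dvd_mul_right _ _)
  obtain ⟨F, hF, hFe, hFg⟩ := hpair A B hm hi D hD0 hDdiv'
  have hD1 : (1 : ℝ) ≤ D := by exact_mod_cast Nat.pos_of_ne_zero hD0
  set Q : ℝ := M₁ * (N : ℝ) ^ (1 / 2 + ρ) * (D : ℝ) ^ ρ with hQ
  have hQ1 : 1 ≤ Q := by
    have h1 : (1 : ℝ) ≤ (N : ℝ) ^ (1 / 2 + ρ) := Real.one_le_rpow hN1 (by linarith)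
    have h2 : (1 : ℝ) ≤ (D : ℝ) ^ ρ := Real.one_le_rpow hD1 hρ0.le
    calc (1 : ℝ) = 1 * 1 * 1 := by norm_num
      _ ≤ _ := by
        rw [hQ]
        gcongr
  have hmain := hcore D hD0 hN₀D (lam A B) (abs_lam_le h A B) F Q hQ1 hF (fun s hs => hFe s hs)
    (fun s hs1 hs2 => by
      refine (hFg s (by linarith) hs2).trans ?_
      have h1 : (0 : ℝ) ≤ (1 + |s.im|) ^ T := by positivity
      refine mul_le_mul_of_nonneg_right ?_ h1
      rw [hQ]
      have : M ≤ M₁ := le_max_left _ _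
      gcongr)
  -- the bound
  have hbound : C * (Q * (D : ℝ) ^ ρ) ^ e ≤ C * K ^ e * ((N : ℝ) ^ θ * (n : ℝ) ^ ε) := by
    have hDr : (D : ℝ) = ((N₀ : ℝ) * 6) * N * n := by
      rw [hD]
      push_cast
      ring
    have h1 : Q * (D : ℝ) ^ ρ = K * ((N : ℝ) ^ (1 / 2 + ρ + 2 * ρ) * (n : ℝ) ^ (2 * ρ)) := by
      have h2 : (D : ℝ) ^ ρ * (D : ℝ) ^ ρ = ((N₀ : ℝ) * 6) ^ (2 * ρ) * (N : ℝ) ^ (2 * ρ) * (n : ℝ) ^ (2 * ρ) := by
        rw [← Real.rpow_add (by linarith), ← two_mul, hDr, Real.mul_rpow (by positivity) (by positivity),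
          Real.mul_rpow (by positivity) (by positivity)]
      rw [Real.rpow_add (by linarith : (0 : ℝ) < N) (1 / 2 + ρ) (2 * ρ), hQ, hK]
      calc M₁ * (N : ℝ) ^ (1 / 2 + ρ) * (D : ℝ) ^ ρ * (D : ℝ) ^ ρ =
            M₁ * (N : ℝ) ^ (1 / 2 + ρ) * ((D : ℝ) ^ ρ * (D : ℝ) ^ ρ) := by ring
        _ = _ := by rw [h2]; ring
    have hN0' : (0 : ℝ) ≤ N := by linarith
    have hn0' : (0 : ℝ) ≤ n := by linarith
    have h2e : (K * ((N : ℝ) ^ (1 / 2 + ρ + 2 * ρ) * (n : ℝ) ^ (2 * ρ))) ^ e =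
        K ^ e * ((N : ℝ) ^ ((1 / 2 + ρ + 2 * ρ) * e) * (n : ℝ) ^ (2 * ρ * e)) := by
      rw [Real.mul_rpow (x := K) (by linarith) (by positivity),
        Real.mul_rpow (x := (N : ℝ) ^ (1 / 2 + ρ + 2 * ρ)) (y := (n : ℝ) ^ (2 * ρ)) (by positivity) (by positivity),
        ← Real.rpow_mul (x := (N : ℝ)) hN0', ← Real.rpow_mul (x := (n : ℝ)) hn0']
    rw [h1, h2e]
    have h3 : (N : ℝ) ^ ((1 / 2 + ρ + 2 * ρ) * e) ≤ (N : ℝ) ^ θ := Real.rpow_le_rpow_of_exponent_le hN1 heN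
    have h4 : (n : ℝ) ^ (2 * ρ * e) ≤ (n : ℝ) ^ ε := Real.rpow_le_rpow_of_exponent_le hn1 heD
    have h5 : 0 ≤ K ^ e := by positivity
    calc C * (K ^ e * ((N : ℝ) ^ ((1 / 2 + ρ + 2 * ρ) * e) * (n : ℝ) ^ (2 * ρ * e))) ≤
          C * (K ^ e * ((N : ℝ) ^ θ * (n : ℝ) ^ ε)) := by gcongr
      _ = _ := by ring
  by_contra hcon
  push Not at hcon
  set X : ℝ := C * K ^ e * ((N : ℝ) ^ θ * (n : ℝ) ^ ε) with hX
  have hX1 : 1 ≤ X := by
    have h1 : (1 : ℝ) ≤ K ^ e := Real.one_le_rpow hK1 he0.le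
    have h2 : (1 : ℝ) ≤ (N : ℝ) ^ θ := Real.one_le_rpow hN1 (by linarith)
    have h3 : (1 : ℝ) ≤ (n : ℝ) ^ ε := Real.one_le_rpow hn1 hε.le
    calc (1 : ℝ) = 1 * 1 * (1 * 1) := by norm_num
      _ ≤ _ := by
        rw [hX]
        gcongr
  have hfin := hmain (2 * X) (by linarith) (fun p hp hpX hpD => by
    have hnd : ¬ (p : ℤ) ∣ n * bad A B * bad A₀ B₀ := fun h => hpD (hDdiv p hp h)
    have h1 : trace A B p = trace A₀ B₀ p := by
      by_contra hne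
      have h2 := hcon p hp hnd hne
      have h3 : 2 * (C * K ^ e) * (N : ℝ) ^ θ * (n : ℝ) ^ ε = 2 * X := by
        rw [hX]
        ring
      rw [h3] at h2
      linarith
    have hg1 : ¬ (p : ℤ) ∣ bad A B := fun h => hnd (by
      rw [mul_assoc]
      exact (h.trans (dvd_mul_right _ _)).trans (dvd_mul_left _ _))
    have hg2 : ¬ (p : ℤ) ∣ bad A₀ B₀ := fun h => hnd (h.trans (dvd_mul_left _ _))
    unfold lam
    rw [if_pos ⟨hp, hg1⟩, if_pos ⟨hp, hg2⟩, h1])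
  linarith

/-- **the bound for `n`** -/
theorem bound (h₀ : Minimal A₀ B₀) (hκ : 0 ≤ κ) (h : Facts cond A₀ B₀ κ) {θ : ℝ} (hθ0 : 1 / 2 < θ)
    (hθ : Real.exp (-1 / (1 + 2 * κ)) < θ) :
    ∃ C : ℝ, 0 < C ∧ ∀ A B, Minimal A B → ¬ Isogenous A B A₀ B₀ → ∀ n : ℕ, Congruent n A B A₀ B₀ →
      (n : ℝ) ≤ C * (cond A B : ℝ) ^ (θ / 2) := by
  obtain ⟨θ₁, hlo, hhi⟩ := exists_between (max_lt hθ0 hθ)
  have hθ₁0 : 1 / 2 < θ₁ := (le_max_left _ _).trans_lt hlo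
  have hθ₁e : Real.exp (-1 / (1 + 2 * κ)) < θ₁ := (le_max_right _ _).trans_lt hlo
  set ε : ℝ := min 1 (2 * (θ - θ₁) / θ) with hε
  have hθp : 0 < θ := by linarith
  have hε0 : 0 < ε := lt_min one_pos (div_pos (by linarith) hθp)
  have hε1 : ε ≤ 1 := min_le_left _ _
  have hε2 : ε * θ ≤ 2 * (θ - θ₁) := by
    have : ε ≤ 2 * (θ - θ₁) / θ := min_le_right _ _
    rwa [le_div_iff₀ hθp] at this
  obtain ⟨C, hC, hl⟩ := least h₀ hκ h hθ₁0 hθ₁e hε0
  set e : ℝ := 1 / (1 - ε / 2) with he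
  have hden : 0 < 1 - ε / 2 := by linarith
  refine ⟨(4 * √C) ^ e, by positivity, fun A B hm hi n hc => ?_⟩
  have hN1 : (1 : ℝ) ≤ cond A B := by exact_mod_cast h.cond_pos A B hm
  rcases Nat.eq_zero_or_pos n with rfl | hn
  · push_cast
    positivity
  have hn1 : (1 : ℝ) ≤ n := by exact_mod_cast hn
  obtain ⟨p, hp, hpd, hne, hpb⟩ := hl A B hm hi n hn
  have hdiv := h.congruence A B hm n hc p hp hpd
  have hg1 : ¬ (p : ℤ) ∣ bad A B := fun h => hpd (by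
    rw [mul_assoc]
    exact (h.trans (dvd_mul_right _ _)).trans (dvd_mul_left _ _))
  have hg2 : ¬ (p : ℤ) ∣ bad A₀ B₀ := fun h => hpd (h.trans (dvd_mul_left _ _))
  have h1 : (n : ℤ) ≤ |trace A B p - trace A₀ B₀ p| :=
    Int.le_of_dvd (abs_pos.2 (sub_ne_zero.2 hne)) ((dvd_abs _ _).2 hdiv)
  have h2 : (n : ℝ) ≤ |(trace A B p : ℝ) - trace A₀ B₀ p| := by exact_mod_cast h1
  have h3 : (n : ℝ) ≤ 4 * √p := by
    have h4 := h.hasse A B p hp hg1
    have h5 := h.hasse A₀ B₀ p hp hg2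
    have h6 := abs_sub (trace A B p : ℝ) (trace A₀ B₀ p)
    linarith
  have h4 : √(p : ℝ) ≤ √C * (cond A B : ℝ) ^ (θ₁ / 2) * (n : ℝ) ^ (ε / 2) := by
    have h5 := Real.sqrt_le_sqrt hpb
    refine h5.trans (le_of_eq ?_)
    rw [Real.sqrt_mul (by positivity), Real.sqrt_mul hC.le]
    congr 1
    · congr 1
      rw [Real.sqrt_eq_rpow, ← Real.rpow_mul (by linarith)]
      congr 1
      ring
    · rw [Real.sqrt_eq_rpow, ← Real.rpow_mul (by linarith)]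
      congr 1
      ring
  have h5 : (n : ℝ) ^ (1 - ε / 2) ≤ 4 * √C * (cond A B : ℝ) ^ (θ₁ / 2) := by
    have h6 : (0 : ℝ) < (n : ℝ) ^ (ε / 2) := by positivity
    have h7 : (n : ℝ) ^ (1 - ε / 2) * (n : ℝ) ^ (ε / 2) = n := by
      rw [← Real.rpow_add (by linarith)]
      simp
    refine le_of_mul_le_mul_right ?_ h6
    rw [h7]
    calc (n : ℝ) ≤ 4 * √p := h3
      _ ≤ 4 * (√C * (cond A B : ℝ) ^ (θ₁ / 2) * (n : ℝ) ^ (ε / 2)) := by gcongr
      _ = _ := by ring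
  calc (n : ℝ) = ((n : ℝ) ^ (1 - ε / 2)) ^ e := by
        rw [← Real.rpow_mul (by linarith), he, mul_one_div_cancel hden.ne', Real.rpow_one]
    _ ≤ (4 * √C * (cond A B : ℝ) ^ (θ₁ / 2)) ^ e := Real.rpow_le_rpow (by positivity) h5 (by positivity)
    _ = (4 * √C) ^ e * (cond A B : ℝ) ^ (θ₁ / 2 * e) := by
        rw [Real.mul_rpow (by positivity) (by positivity), ← Real.rpow_mul (by linarith)]
    _ ≤ (4 * √C) ^ e * (cond A B : ℝ) ^ (θ / 2) := by
        refine mul_le_mul_of_nonneg_left (Real.rpow_le_rpow_of_exponent_le hN1 ?_) (by positivity)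
        rw [he, mul_one_div, div_le_iff₀ hden]
        nlinarith

/-- **Congruences with a fixed elliptic curve over `ℚ`.**  Let `E₀ : y² = x³ + A₀x + B₀` be an elliptic curve over
`ℚ` and `κ` the mean value of `|a_p(E₀)| / √p` (the value `8 / (3 π)` is the one of the curves without, `2 / π` that
of the curves with complex multiplication).  Let `θ > 1/2` and `θ > exp (-1 / (1 + 2 κ))`.
1. There is a constant `C` such that for every elliptic curve `E` over `ℚ` which is not isogenous to `E₀` and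
   every integer `n` such that `E[n]` and `E₀[n]` are isomorphic as Galois modules, `n ≤ C N ^ (θ / 2)`, where `N`
   is the conductor of `E`.
2. For every `ε > 0` there is `C` such that for all these `E` and all `n ≥ 1` there is a prime
   `p ≤ C N ^ θ n ^ ε`, of good reduction for both curves and not dividing `n`, with `a_p(E) ≠ a_p(E₀)`.
3. and 4. In particular `n ≤ C N ^ 0.3452` without, and `n ≤ C N ^ 0.3221` with complex multiplication. -/
theorem result (cond : ℤ → ℤ → ℕ) (A₀ B₀ : ℤ) (h₀ : Minimal A₀ B₀) (κ : ℝ) (hκ : 0 ≤ κ)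
    (h : Facts cond A₀ B₀ κ) :
    (∀ θ : ℝ, 1 / 2 < θ → Real.exp (-1 / (1 + 2 * κ)) < θ →
      (∃ C : ℝ, 0 < C ∧ ∀ A B, Minimal A B → ¬ Isogenous A B A₀ B₀ → ∀ n : ℕ, Congruent n A B A₀ B₀ →
        (n : ℝ) ≤ C * (cond A B : ℝ) ^ (θ / 2)) ∧
      ∀ ε : ℝ, 0 < ε → ∃ C : ℝ, 0 < C ∧ ∀ A B, Minimal A B → ¬ Isogenous A B A₀ B₀ → ∀ n : ℕ, 1 ≤ n →
        ∃ p : ℕ, p.Prime ∧ ¬ (p : ℤ) ∣ n * bad A B * bad A₀ B₀ ∧ trace A B p ≠ trace A₀ B₀ p ∧
          (p : ℝ) ≤ C * (cond A B : ℝ) ^ θ * (n : ℝ) ^ ε) ∧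
    (κ = 8 / (3 * Real.pi) → ∃ C : ℝ, 0 < C ∧ ∀ A B, Minimal A B → ¬ Isogenous A B A₀ B₀ →
      ∀ n : ℕ, Congruent n A B A₀ B₀ → (n : ℝ) ≤ C * (cond A B : ℝ) ^ (0.3452 : ℝ)) ∧
    (κ = 2 / Real.pi → ∃ C : ℝ, 0 < C ∧ ∀ A B, Minimal A B → ¬ Isogenous A B A₀ B₀ →
      ∀ n : ℕ, Congruent n A B A₀ B₀ → (n : ℝ) ≤ C * (cond A B : ℝ) ^ (0.3221 : ℝ)) := by
  refine ⟨fun θ hθ0 hθ => ⟨bound h₀ hκ h hθ0 hθ, fun ε hε => least h₀ hκ h hθ0 hθ hε⟩, fun he => ?_, fun he => ?_⟩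
  · have := bound h₀ hκ h (θ := 0.6904) (by norm_num) (by rw [he]; exact num1)
    norm_num at this ⊢
    exact this
  · have := bound h₀ hκ h (θ := 0.6442) (by norm_num) (by rw [he]; exact num2)
    norm_num at this ⊢
    exact this

end Pool.Agent.Results.MP_4a0cc8_nt.ConductorExponent
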