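import Pool.Agent.U405.RS.F
import Pool.Agent.Results.MP_4a0cc8_nt.PartnerWindows

/-!
# No congruences with a given curve for the invariants with height near values of `f` at thin sets of arguments

Let `f` be a positive multiplicative function of at most polynomial growth which for each `a ≥ 1` is injective at the powers
`p ^ a` of the large primes and at most `M p ^ a` there; for example Euler's function or the sum of the divisors. Let `G` have steps bounded below by a positive constant and growth at most `v^D`, for example `α v^D` with an arbitrary power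
`D ≥ 1`, let `0 ≤ θ < e` and let `n` be the degree of the number fields considered. There is a number `n₀`, which depends on `n`,
`D`, `θ` and `e` only, with the following property: for EVERY number field `K` of degree `n`, EVERY elliptic curve
`E₀ : y² = x³ + A₀x + B₀`, `A₀`, `B₀` in the integers of `K`, NO elliptic curve `E` over `K` for which the height of the invariant
satisfies `|H(j(E)) - G (f v)| ≤ f(v)^θ` is congruent to `E₀` modulo some `k ≥ n₀`, for almost all `v` (with a saving of any power
of the logarithm) in each of these sets: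

* the values of any integer polynomial without repeated roots, of degree `< 1 / e`;
* the shifted primes `p + a`, `a` any integer, if `e < 1`;
* the intervals `(x, x + y]`, `x^τ ≤ y ≤ x`, for every `τ > e`, `τ ≤ 1`.

Since `e > θ` is arbitrary, `θ = 0` gives all polynomials without repeated roots, of any degree, and the intervals of length
`x^τ` for every `τ > 0`.

Proof. Own tool `Pool.Agent.U405.RS`: let `S` be a set of at least `N^(θ + δ)` integers up to `N` with at most
`B g^ω(k) |S| / k` multiples of `k` for every `k ≤ N^δ`, and let `W` have at most `C X^θ` elements up to `X`. Then `f(m) ∈ W` for at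
most `|S| / (log N)^U` of the `m` in `S`. For this write `m = k w` with `k` composed of the primes `≤ z = N^(1 / J)`, `J` a small
multiple of `log log N`. By Rankin's method with the weights `g^ω(k)` one has `k ≤ N^η` for most `m`; and `w` has at most `J`
prime factors and exponents `≤ J`, so that `w` is determined by `f(w)` up to `(J τ(f(w)) + 1)^J = N^o(1)` possibilities. The three
kinds of sets satisfy the hypothesis: for polynomials because `P` has at most `g` zeros modulo every prime power (lifting of
zeros by the identity `U P + V P' = R`), for shifted primes by the Brun-Titchmarsh inequality (library). The number of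
the invariants of the congruent curves is bounded by the starting theorem `FewPartnersAllLevels` of this problem (in the form
`PartnerWindows.partners_count`).
-/

set_option autoImplicit false

namespace Pool.Agent.Results.MP_4a0cc8_nt.SparseArguments

open NumberField
open FewPartnersAllLevels (Congruent jInvariant)
open Pool.Agent.N733.TG (Expanding expanding_pow)
open Pool.Agent.U405.RS (PM Sparse sparse_of examples)
open PartnerWindows (Partners partners_count)

/-- no elliptic curve `E : y² = x³ + Ax + B` over `K` with `|H(j(E)) - G v| ≤ v ^ θ` satisfies `E[k] ≅ E₀[k]` for some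
`k ≥ n₀` -/
def Clear {K : Type} [Field K] [NumberField K] (n₀ : ℕ) (A₀ B₀ : 𝓞 K) (G : ℕ → ℝ) (θ : ℝ) (v : ℕ) : Prop :=
  ∀ A B : K, 4 * A ^ 3 + 27 * B ^ 2 ≠ 0 → |Height.mulHeight₁ (jInvariant A B) - G v| ≤ (v : ℝ) ^ θ →
    ∀ k : ℕ, n₀ ≤ k → ¬ Congruent k A B (A₀ : K) (B₀ : K)

/-- **No congruences near `G (f v)` for the `v` in thin sets.** For all `n`, `D ≥ 1` and `0 ≤ θ < e` there is `n₀` such that
for all `f` in the class `PM`, all `G` with steps `≥ const > 0` and growth at most `v^D`, all number fields `K` of degree `n`, all
elliptic curves `E₀ : y² = x³ + A₀x + B₀` with `A₀`, `B₀` integral and all `U` the property `Clear n₀ A₀ B₀ G θ` holds in the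
sense `Sparse e f`: with a saving of `(log x)^U` it holds at `f v` for almost all `v` among the positive values of every integer
polynomial without repeated roots of degree `< 1 / e`; among the shifted primes `p + a` for every `a`, if `e < 1`; and in all
intervals `(x, x + y]`, `x^τ ≤ y ≤ x`, `e < τ ≤ 1`. Euler's function and the sum of the divisors are in the class, and `α v^D`
with `α > 0`, `D ≥ 1` is an example of `G`. -/
theorem result :
    (∀ (n : ℕ) (D θ e : ℝ), 1 ≤ D → 0 ≤ θ → θ < e → ∃ n₀ : ℕ, ∀ f : ℕ → ℕ, PM f → ∀ G : ℕ → ℝ, Expanding G D →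
      ∀ (K : Type) [Field K] [NumberField K], Module.finrank ℚ K = n → ∀ A₀ B₀ : 𝓞 K, 4 * A₀ ^ 3 + 27 * B₀ ^ 2 ≠ 0 →
      ∀ U : ℕ, Sparse e f (Clear n₀ A₀ B₀ G θ) U) ∧
    (PM Nat.totient ∧ PM (fun m => ∑ d ∈ m.divisors, d) ∧ PM (fun m => m)) ∧
    ∀ α D : ℝ, 0 < α → 1 ≤ D → Expanding (fun v => α * (v : ℝ) ^ D) D := by
  refine ⟨fun n D θ e hD hθ hθ1 => ?_, examples, fun α D hα hD => expanding_pow hα hD⟩
  obtain ⟨ε, hε⟩ : ∃ ε, ε = (e - θ) / D := ⟨_, rfl⟩
  have hε0 : 0 < ε := by
    rw [hε]
    apply div_pos (by linarith) (by linarith)
  have hεD : D * ε + θ = e := by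
    rw [hε]
    field_simp
    ring
  obtain ⟨n₀, h⟩ := partners_count n ε hε0
  refine ⟨n₀, fun f hf G hG K _ _ hK A₀ B₀ h0 U => ?_⟩
  obtain ⟨C, hC, h'⟩ := h K hK A₀ B₀ h0
  rw [← hεD]
  apply sparse_of (Partners n₀ (A₀ : K) (B₀ : K)) (fun x => Height.mulHeight₁ x) hf hG hε0.le hθ (fun η hη => ?_)
  · intro v _ hv
    unfold Clear at hv
    push Not at hv
    obtain ⟨A, B, hAB, hw, k, hk, hcon⟩ := hv
    exact ⟨jInvariant A B, ⟨A, B, hAB, rfl, k, hk, hcon⟩, hw⟩
  · refine ⟨C, fun X hX => ⟨(h' X hX).1, (h' X hX).2.trans ?_⟩⟩
    apply mul_le_mul_of_nonneg_left _ hC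
    exact Real.rpow_le_rpow_of_exponent_le hX (by linarith)

end Pool.Agent.Results.MP_4a0cc8_nt.SparseArguments
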