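import Pool.Agent.U964.FM.Main
import Pool.Agent.U964.FM.Loc
import Pool.Agent.TH4.FZ.Scale

/-!
# The conjecture for the sparse fibres of a family, over every number field

Let `J = A / D` be a rational function over `ℚ` of degree at most `N` with at least `γ ≥ 3` poles (the
roots of a squarefree polynomial `g` of degree `γ` which divides `D`; a pole at infinity may be moved to
a finite place). For example `J = 256 (t² - t + 1)³ / (t² (1 - t)²)` composed with a Möbius
transformation: the Legendre family, all curves with full two-torsion, `N = 6`, `γ = 3`. We consider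
the fibres `J(x)` at the sparse rational numbers `x`, the elliptic curves `E` with invariant `J(x)`
over arbitrary number fields `K` (all twists, also those not defined over `ℚ`), and fixed elliptic
curves `E₀` over `K`.

Let `S` be a finite set of primes. A number is called sparse if it is a sum of at most `l` `S`-units
with small integer coefficients, at most `B H(x) ^ δ`. The number `x` is called sparse if its
numerator, its denominator, a multiple `κ R` of the product `R` of the primes outside `S` at which `x`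
meets a root of `g`, and the cofactor `(κ R) ^ m / G(x)` are sparse, `κ ≤ B H(x) ^ θ`; here `G(x)` is
the value of the binary form of `g`. For `θ = 0`, `B = 1` this is `κ = 1`.

There is `n₀`, which depends on nothing but the ratio `N / (γ - 2 - θ)`, such that over every number
field `K` only finitely many elliptic curves `E` over `K`, up to isomorphism, with invariant `J(x)`,
`x` sparse, are congruent to a given `E₀` modulo some `n ≥ n₀`. So there is `n₁` such that for these
`E` an isomorphism `E[n] ≅ E₀[n]` for a single `n ≥ n₁` implies `E[m] ≅ E₀[m]` for infinitely many `m`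
(and then `E` is isogenous to `E₀` by Faltings). The height of `x` is bounded by a power of the
discriminants of `K` and `E₀`, uniformly in `K`, `E₀` and `n`.
-/

set_option autoImplicit false

open WeierstrassCurve NumberField Polynomial
open scoped Classical

namespace Pool.Agent.Results.MP_4a0cc8_nt.SparseFibres

section
variable {K : Type} [Field K]

/-- The curve `y² = x³ + Ax + B` over `K`. -/
def curve (A B : K) : WeierstrassCurve K := ⟨0, 0, 0, A, B⟩

/-- The group of its points over the algebraic closure of `K`. -/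
abbrev Points (A B : K) : Type := ((curve A B).baseChange (AlgebraicClosure K)).toAffine.Point

/-- The action of a `K`-automorphism `σ` of the algebraic closure on the points. -/
noncomputable def galois (A B : K) (σ : AlgebraicClosure K ≃ₐ[K] AlgebraicClosure K) :
    Points A B →+ Points A B :=
  WeierstrassCurve.Affine.Point.map (σ : AlgebraicClosure K →ₐ[K] AlgebraicClosure K)

/-- The `n`-torsion of `y² = x³ + Ax + B` and that of `y² = x³ + A'x + B'` are isomorphic as Galois
modules: some map between the groups of points restricts to a bijective additive map of the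
`n`-torsion which commutes with the Galois group. -/
def Congruent (n : ℕ) (A B A' B' : K) : Prop :=
  ∃ f : Points A B → Points A' B', (∀ P Q, n • P = 0 → n • Q = 0 → f (P + Q) = f P + f Q) ∧
    Set.BijOn f {P | n • P = 0} {Q | n • Q = 0} ∧
    ∀ (σ : AlgebraicClosure K ≃ₐ[K] AlgebraicClosure K) (P : Points A B), n • P = 0 →
      f (galois A B σ P) = galois A' B' σ (f P)

/-- The invariant of `y² = x³ + Ax + B`. -/
noncomputable def jInvariant (A B : K) : K := 6912 * A ^ 3 / (4 * A ^ 3 + 27 * B ^ 2)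

/-- The curves `y² = x³ + Ax + B` and `y² = x³ + A'x + B'` are isomorphic over `K`. -/
def Isomorphic (A B A' B' : K) : Prop := ∃ t : K, t ≠ 0 ∧ A' = t ^ 4 * A ∧ B' = t ^ 6 * B

end

/-- the height `H(x) = max (|numerator|, denominator)` of a rational number -/
noncomputable def H (x : ℚ) : ℝ := max |(x.num : ℝ)| (x.den : ℝ)

/-- The value `∑ g_i s ^ i t ^ (γ - i)` at `x = s / t` of the binary form of the polynomial `g` of
degree `γ`. -/
noncomputable def G (g : ℤ[X]) (x : ℚ) : ℤ :=
  ∑ i ∈ Finset.range (g.natDegree + 1), g.coeff i * x.num ^ i * (x.den : ℤ) ^ (g.natDegree - i)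

/-- the product of the primes outside `S` which divide `G(x)` -/
noncomputable def radical (S : Finset ℕ) (g : ℤ[X]) (x : ℚ) : ℕ :=
  ∏ p ∈ (G g x).natAbs.primeFactors \ S, p

/-- `u` is an `S`-unit: plus or minus a product of powers (with integer exponents) of the primes in
`S` -/
def IsSUnit (S : Finset ℕ) (u : ℚ) : Prop :=
  ∃ (σ : ℤ) (e : ℕ → ℤ), (σ = 1 ∨ σ = -1) ∧ u = σ * ∏ p ∈ S, (p : ℚ) ^ e p

/-- the rational number `z` is a sum of `l` `S`-units with integer coefficients of absolute value at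
most `R` -/
def IsSparse (S : Finset ℕ) (l : ℕ) (R : ℝ) (z : ℚ) : Prop :=
  ∃ (u : Fin l → ℚ) (c : Fin l → ℤ), (∀ j, IsSUnit S (u j)) ∧ (∀ j, |(c j : ℝ)| ≤ R) ∧
    z = ∑ j, u j * c j

/-- The sparse points `x` of the line: for some positive integer `κ ≤ B H(x) ^ θ` the numerator and
the denominator of `x`, the multiple `κ R` of the radical `R` of `G(x)` and the cofactor
`(κ R) ^ m / G(x)` are sums of `l` `S`-units with integer coefficients of absolute value at most
`B H(x) ^ δ`. -/
def IsSparsePoint (S : Finset ℕ) (l m : ℕ) (B θ δ : ℝ) (g : ℤ[X]) (x : ℚ) : Prop :=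
  G g x ≠ 0 ∧ ∃ κ : ℕ, 0 < κ ∧ (κ : ℝ) ≤ B * H x ^ θ ∧
    IsSparse S l (B * H x ^ δ) x.num ∧ IsSparse S l (B * H x ^ δ) x.den ∧
    IsSparse S l (B * H x ^ δ) (κ * radical S g x : ℕ) ∧
    IsSparse S l (B * H x ^ δ) (((κ * radical S g x : ℕ) : ℚ) ^ m / G g x)

/-- `y² = X³ + aX + b` is an elliptic curve over `K` with the invariant `A(x) / D(x)`, `D(x) ≠ 0`. -/
def IsFibre {K : Type} [Field K] (A D : ℤ[X]) (x : ℚ) (a b : K) : Prop :=
  aeval x D ≠ 0 ∧ 4 * a ^ 3 + 27 * b ^ 2 ≠ 0 ∧ jInvariant a b = ((aeval x A / aeval x D : ℚ) : K)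

section Aux

open Pool.Agent.TH4.FZ WeierstrassCurve.Affine

variable {K : Type} [Field K]

theorem sc_of' {A B t : K} (ht : t ≠ 0) :
    Sc ((curve A B).baseChange (AlgebraicClosure K)).toAffine
      ((curve (t ^ 4 * A) (t ^ 6 * B)).baseChange (AlgebraicClosure K)).toAffine
      (algebraMap K (AlgebraicClosure K) t) where
  a1 := map_zero _
  a2 := map_zero _
  a3 := map_zero _
  b1 := map_zero _
  b2 := map_zero _
  b3 := map_zero _
  h4 := by
    show algebraMap K (AlgebraicClosure K) (t ^ 4 * A) = _ * algebraMap K (AlgebraicClosure K) A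
    rw [map_mul, map_pow]
  h6 := by
    show algebraMap K (AlgebraicClosure K) (t ^ 6 * B) = _ * algebraMap K (AlgebraicClosure K) B
    rw [map_mul, map_pow]
  hu := by
    rw [Ne, map_eq_zero_iff _ (FaithfulSMul.algebraMap_injective K (AlgebraicClosure K))]
    exact ht

theorem iso_symm {A B A' B' : K} (h : Isomorphic A B A' B') : Isomorphic A' B' A B := by
  obtain ⟨t, ht, rfl, rfl⟩ := h
  refine ⟨t⁻¹, inv_ne_zero ht, ?_, ?_⟩
  · field_simp
  · field_simp

theorem iso_refl (A B : K) : Isomorphic A B A B := ⟨1, one_ne_zero, by simp, by simp⟩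

theorem iso_trans {A B A' B' A'' B'' : K} (h : Isomorphic A B A' B')
    (h' : Isomorphic A' B' A'' B'') : Isomorphic A B A'' B'' := by
  obtain ⟨t, ht, rfl, rfl⟩ := h
  obtain ⟨u, hu, rfl, rfl⟩ := h'
  exact ⟨u * t, mul_ne_zero hu ht, by ring, by ring⟩

theorem iso_disc {A B A' B' : K} (h : Isomorphic A B A' B') (h0 : 4 * A ^ 3 + 27 * B ^ 2 ≠ 0) :
    4 * A' ^ 3 + 27 * B' ^ 2 ≠ 0 := by
  obtain ⟨t, ht, rfl, rfl⟩ := h
  have : 4 * (t ^ 4 * A) ^ 3 + 27 * (t ^ 6 * B) ^ 2 = t ^ 12 * (4 * A ^ 3 + 27 * B ^ 2) := by ring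
  rw [this]
  exact mul_ne_zero (pow_ne_zero _ ht) h0

theorem iso_j {A B A' B' : K} (h : Isomorphic A B A' B') :
    jInvariant A' B' = jInvariant A B := by
  obtain ⟨t, ht, rfl, rfl⟩ := h
  unfold jInvariant
  have : 4 * (t ^ 4 * A) ^ 3 + 27 * (t ^ 6 * B) ^ 2 = t ^ 12 * (4 * A ^ 3 + 27 * B ^ 2) := by ring
  rw [this]
  field_simp

/-- congruences depend only on the isomorphism class of the curve -/
theorem congr_iso {n : ℕ} {A B A' B' A₀ B₀ : K} (hi : Isomorphic A B A' B')
    (h : Congruent n A' B' A₀ B₀) : Congruent n A B A₀ B₀ := by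
  obtain ⟨t, ht, rfl, rfl⟩ := hi
  obtain ⟨f, h1, h2, h3⟩ := h
  have hs := sc_of' (A := A) (B := B) ht
  have h0 : ∀ P : Points A B, n • P = 0 → n • scl hs P = 0 := by
    intro P hP
    rw [← scl_nsmul, hP]
    rfl
  refine ⟨fun P => f (scl hs P), ?_, ?_, ?_⟩
  · intro P Q hP hQ
    show f (scl hs (P + Q)) = _
    rw [scl_add, h1 _ _ (h0 P hP) (h0 Q hQ)]
  · have hb : Set.BijOn (scl hs) {P | n • P = 0} {Q | n • Q = 0} := by
      refine ⟨?_, ?_, ?_⟩
      · intro P hP
        exact h0 P hP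
      · intro P _ Q _ hPQ
        have := congrArg (scl hs.symm) hPQ
        rwa [scl_symm, scl_symm] at this
      · intro P hP
        refine ⟨scl hs.symm P, ?_, scl_symm' hs P⟩
        show n • scl hs.symm P = 0
        rw [← scl_nsmul, hP]
        rfl
    exact h2.comp hb
  · intro σ P hP
    show f (scl hs (galois A B σ P)) = galois A₀ B₀ σ (f (scl hs P))
    rw [← h3 σ (scl hs P) (h0 P hP)]
    congr 1
    rcases P with _ | ⟨x, y, hn⟩
    · rfl
    · obtain ⟨h', e1⟩ : ∃ h', galois A B σ (Point.some x y hn) = Point.some (σ x) (σ y) h' :=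
        ⟨_, rfl⟩
      rw [e1]
      show Point.some _ _ _ = Point.some _ _ _
      have e2 : σ (algebraMap K (AlgebraicClosure K) t) = algebraMap K (AlgebraicClosure K) t :=
        σ.commutes t
      congr 1
      · show _ = σ (_ ^ 2 * x)
        rw [map_mul, map_pow, e2]
      · show _ = σ (_ ^ 3 * y)
        rw [map_mul, map_pow, e2]

/-- isomorphism classes -/
def st (K : Type) [Field K] : Setoid (K × K) where
  r e e' := Isomorphic e.1 e.2 e'.1 e'.2
  iseqv := ⟨fun e => iso_refl e.1 e.2, fun h => iso_symm h, fun h h' => iso_trans h h'⟩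

/-- a representative of the isomorphism class -/
noncomputable def rep (e : K × K) : K × K := (Quotient.mk (st K) e).out

theorem rep_iso (e : K × K) : Isomorphic (rep e).1 (rep e).2 e.1 e.2 :=
  Quotient.mk_out (s := st K) e

theorem rep_eq {e e' : K × K} (h : Isomorphic e.1 e.2 e'.1 e'.2) : rep e = rep e' := by
  unfold rep
  congr 1
  exact Quotient.sound (s := st K) h

theorem rep_rep (e : K × K) : rep (rep e) = rep e := rep_eq (rep_iso e)

/-- if the curves congruent to a given curve belong to finitely many classes, then the levels of the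
curves with finitely many levels are bounded -/
theorem levels {A₀ B₀ : K} (n₀ : ℕ) (T : K → K → Prop) (𝓔 : Finset (K × K))
    (h : ∀ a b, T a b → ∀ n, n₀ ≤ n → Congruent n a b A₀ B₀ →
      ∃ e ∈ 𝓔, Isomorphic e.1 e.2 a b) :
    ∃ n₁ : ℕ, ∀ a b, T a b → ∀ n, n₁ ≤ n → Congruent n a b A₀ B₀ →
      {m : ℕ | Congruent m a b A₀ B₀}.Infinite := by
  have hb : ∀ e : K × K, ∃ n₂ : ℕ, ¬ {m : ℕ | Congruent m e.1 e.2 A₀ B₀}.Infinite →
      ∀ m : ℕ, Congruent m e.1 e.2 A₀ B₀ → m < n₂ := by
    intro e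
    by_cases h : {m : ℕ | Congruent m e.1 e.2 A₀ B₀}.Infinite
    · exact ⟨0, fun h' => absurd h h'⟩
    · rw [Set.not_infinite] at h
      obtain ⟨M, hM⟩ := h.bddAbove
      exact ⟨M + 1, fun _ m hm => Nat.lt_succ_of_le (hM hm)⟩
  choose b hb using hb
  refine ⟨max n₀ (𝓔.sup b), fun a' b' hT n hn hcong => ?_⟩
  obtain ⟨e, he, hiso⟩ := h a' b' hT n ((le_max_left _ _).trans hn) hcong
  by_contra hinf
  have hinf' : ¬ {m : ℕ | Congruent m e.1 e.2 A₀ B₀}.Infinite := by
    intro h
    apply hinf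
    refine h.mono fun m hm => ?_
    exact congr_iso (iso_symm hiso) hm
  have h2 := hb e hinf' n (congr_iso hiso hcong)
  have h3 : b e ≤ 𝓔.sup b := Finset.le_sup he
  have h4 := (le_max_right n₀ (𝓔.sup b)).trans hn
  omega

end Aux

open Pool.Agent.Y673.CB

theorem finite_height (T : ℝ) : {x : ℚ | H x ≤ T}.Finite := by
  refine (NumberField.finite_setOfPred_logHeight₁_le (K := ℚ) (Real.log T)).subset ?_
  intro x hx
  have hH : 0 < H x := lt_max_of_lt_right (by exact_mod_cast x.den_pos)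
  show Height.logHeight₁ x ≤ Real.log T
  have e : Height.logHeight₁ x = Real.log (H x) := by
    rw [Rat.logHeight₁_eq_log_max]
    unfold H
    congr 1
    push_cast
    rw [Nat.cast_natAbs, Int.cast_abs]
  rw [e]
  exact Real.log_le_log hH hx

/-- finitely many classes -/
theorem classes_finite (K : Type) [Field K] [NumberField K] {c₀ P : ℕ} (hc₀ : 0 < c₀)
    (h6 : 6 ∣ c₀) (hP : 1 ≤ P) (X : ℝ) (hX : 1 ≤ X) :
    {e : K × K | rep e = e ∧ Height.mulHeight₁ (jInvariant e.1 e.2) ≤ X ∧
      HE K c₀ P e.1 e.2}.Finite := by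
  obtain ⟨C, κ, -, -, h⟩ := curves_main K (Gd' (Module.finrank ℚ K)) (Gd'_nonneg _)
    (fun m _ hm => le_Gd' _ m hm) (δ := 1) one_pos
  by_contra hinf
  set b : ℝ := C * (c₀ : ℝ) ^ κ * X ^ ((Gd' (Module.finrank ℚ K) + 1) / P + 1) with hb
  obtain ⟨F, hF1, hF2⟩ := (show Set.Infinite _ from hinf).exists_subset_card_eq (⌊b⌋₊ + 1)
  have h2 := h c₀ hc₀ h6 P X hP hX F (fun e he => (hF1 he).2) (by
    intro e he e' he' hiso
    rw [← (hF1 he).1, ← (hF1 he').1]
    exact rep_eq hiso)
  rw [hF2] at h2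
  push_cast at h2
  have h3 := Nat.lt_floor_add_one b
  linarith

/-- **Main theorem.** Let `P ≥ 1`. There is `n₀`, depending on `P` only, with the following property.
Let `J = A / D` be a rational function over `ℚ` of degree at most `N`, in lowest terms, `g` a
squarefree polynomial of degree `γ ≥ 2` which divides `D`, `S` a finite set of primes, `ε > 0`. There
is `δ > 0` such that
(1) for some `C` the inequality
`(γ - 2 - θ - ε - N / P) log H(x) ≤ log |disc K| + log |N(4A₀³ + 27B₀²)| + C` holds for all number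
fields `K`, all elliptic curves `E₀ : y² = x³ + A₀x + B₀` with integral coefficients over `K`, and all
sparse `x`, if some elliptic curve over `K` with the invariant `J(x)` is congruent to `E₀` modulo some
`n ≥ n₀`;
(2) if `N / P + ε < γ - 2 - θ`, then for all `K`, `E₀` there are up to isomorphism only finitely many
elliptic curves over `K` with the invariant `J(x)` for a sparse `x` which are congruent to `E₀` modulo
some `n ≥ n₀`;
(3) then there is also `n₁` such that every such curve which is congruent to `E₀` modulo a single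
`n ≥ n₁` is congruent to `E₀` modulo infinitely many `m`. -/
theorem result (P : ℕ) (hP : 0 < P) : ∃ n₀ : ℕ,
    ∀ (A D g : ℤ[X]) (N : ℕ), A.natDegree ≤ N → D.natDegree ≤ N → D ≠ 0 →
      IsCoprime (A.map (Int.castRingHom ℚ)) (D.map (Int.castRingHom ℚ)) →
      2 ≤ g.natDegree → Squarefree (g.map (Int.castRingHom ℚ)) →
      g.map (Int.castRingHom ℚ) ∣ D.map (Int.castRingHom ℚ) →
      ∀ (S : Finset ℕ), (∀ p ∈ S, p.Prime) → ∀ (l m : ℕ) (B θ ε : ℝ), 0 < ε →
      ∃ δ : ℝ, 0 < δ ∧
        (∃ C : ℝ, ∀ (K : Type) [Field K] [NumberField K] (A₀ B₀ : 𝓞 K),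
          4 * A₀ ^ 3 + 27 * B₀ ^ 2 ≠ 0 → ∀ x : ℚ, IsSparsePoint S l m B θ δ g x →
          ∀ a b : K, IsFibre A D x a b → ∀ n : ℕ, n₀ ≤ n → Congruent n a b (A₀ : K) (B₀ : K) →
            (g.natDegree - 2 - θ - ε - N / P) * Real.log (H x) ≤
              Real.log |(discr K : ℝ)| +
                Real.log |((Algebra.norm ℤ (4 * A₀ ^ 3 + 27 * B₀ ^ 2) : ℤ) : ℝ)| + C) ∧
        ((N : ℝ) / P + ε < g.natDegree - 2 - θ →
          ∀ (K : Type) [Field K] [NumberField K] (A₀ B₀ : 𝓞 K), 4 * A₀ ^ 3 + 27 * B₀ ^ 2 ≠ 0 →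
          (∃ 𝓔 : Finset (K × K), ∀ x : ℚ, IsSparsePoint S l m B θ δ g x →
            ∀ a b : K, IsFibre A D x a b → ∀ n : ℕ, n₀ ≤ n → Congruent n a b (A₀ : K) (B₀ : K) →
            ∃ e ∈ 𝓔, Isomorphic e.1 e.2 a b) ∧
          (∃ n₁ : ℕ, ∀ x : ℚ, IsSparsePoint S l m B θ δ g x →
            ∀ a b : K, IsFibre A D x a b → ∀ n : ℕ, n₁ ≤ n → Congruent n a b (A₀ : K) (B₀ : K) →
            {k : ℕ | Congruent k a b (A₀ : K) (B₀ : K)}.Infinite)) := by
  obtain ⟨n₀, M, hM, -, hall⟩ := HE_all P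
  refine ⟨n₀, ?_⟩
  intro A D g N hA hD hD0 hcop h2g hsq hgD S hS l m B θ ε hε
  obtain ⟨δ, C, hδ, hmain⟩ := Pool.Agent.U964.FM.main1 hA hD hD0 hcop rfl h2g hsq hgD P hP S hS
    l m B ε hε
  -- the inequality
  have hone : ∀ (K : Type) [Field K] [NumberField K] (A₀ B₀ : 𝓞 K),
      4 * A₀ ^ 3 + 27 * B₀ ^ 2 ≠ 0 → ∀ x : ℚ, IsSparsePoint S l m B θ δ g x →
      ∀ a b : K, IsFibre A D x a b → ∀ n : ℕ, n₀ ≤ n → Congruent n a b (A₀ : K) (B₀ : K) →
        (g.natDegree - 2 - θ - ε - N / P) * Real.log (H x) ≤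
          Real.log |(discr K : ℝ)| +
            Real.log |((Algebra.norm ℤ (4 * A₀ ^ 3 + 27 * B₀ ^ 2) : ℤ) : ℝ)| +
            (C + Real.log B + Real.log (6 * M)) := by
    intro K _ _ A₀ B₀ hΔ x hx a b hfib n hn hcong
    obtain ⟨hG0, κ, hκ, hκB, h1, h2, h3, h4⟩ := hx
    obtain ⟨hDx, hab, hj⟩ := hfib
    obtain ⟨f, hf1, hf2, hf3⟩ := hcong
    have hHE := hall K A₀ B₀ hΔ a b hab n hn f ⟨hf1, hf2, hf3⟩
    have hden0 : (x.den : ℤ) ≠ 0 := by exact_mod_cast x.den_nz
    have hxe : ((x.num : ℚ) / ((x.den : ℤ) : ℚ)) = x := by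
      rw [Int.cast_natCast]; exact Rat.num_div_den x
    have eA := Pool.Agent.Y670.RD.fvq hA (s := x.num) hden0
    have eD := Pool.Agent.Y670.RD.fvq hD (s := x.num) hden0
    rw [hxe] at eA eD
    have htN : (((x.den : ℤ) : ℚ)) ^ N ≠ 0 := pow_ne_zero _ (by exact_mod_cast hden0)
    have hF0 : Pool.Agent.Y670.RD.fv N D x.num x.den ≠ 0 := by
      intro h
      rw [h, Int.cast_zero] at eD
      exact mul_ne_zero htN hDx eD.symm
    have hJ : (aeval x A / aeval x D : ℚ) =
        (Pool.Agent.Y670.RD.fv N A x.num x.den : ℚ) / Pool.Agent.Y670.RD.fv N D x.num x.den := by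
      rw [eA, eD]
      field_simp
    have hj' : Pool.Agent.Y673.Loc.jv a b = ((Pool.Agent.Y670.RD.fv N A x.num x.den : ℤ) : K) /
        ((Pool.Agent.Y670.RD.fv N D x.num x.den : ℤ) : K) := by
      have e : Pool.Agent.Y673.Loc.jv a b = jInvariant a b := rfl
      rw [e, hj, hJ]
      push_cast
      rfl
    have hc₀ := badN_pos hM hΔ
    have hm := hmain (badN K M A₀ B₀) hc₀ x κ (((κ * radical S g x : ℕ) : ℚ) ^ m / G g x) hκ
      hG0 hF0 (by
        have hne : ((G g x : ℤ) : ℚ) ≠ 0 := by exact_mod_cast hG0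
        change ((κ * radical S g x : ℕ) : ℚ) ^ m = (G g x : ℚ) *
          (((κ * radical S g x : ℕ) : ℚ) ^ m / (G g x : ℚ))
        field_simp) (by
        intro p hp hpc hpA hpD
        exact Pool.Agent.U964.FM.pole_ge hc₀.ne' (discr_badN _ _ _) hHE hj' hF0 hp hpc hpA hpD)
      h1 h2 h3 h4
    obtain ⟨h, hh⟩ : ∃ h : ℝ, h = Real.log (H x) := ⟨_, rfl⟩
    change (g.natDegree - 2 - ε - N / P) * Real.log (H x) ≤ _ at hm
    rw [← hh] at hm ⊢
    have hH : 0 < H x := lt_max_of_lt_right (by exact_mod_cast x.den_pos)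
    have hκ1 : (1 : ℝ) ≤ κ := by exact_mod_cast hκ
    have hHθ : 0 < H x ^ θ := Real.rpow_pos_of_pos hH _
    have hB : 0 < B := by
      by_contra hB
      have h5 : B * H x ^ θ ≤ 0 := mul_nonpos_of_nonpos_of_nonneg (not_lt.1 hB) hHθ.le
      linarith
    have hlogκ : Real.log κ ≤ Real.log B + θ * h := by
      have h5 := Real.log_le_log (by linarith) hκB
      rwa [Real.log_mul hB.ne' hHθ.ne', Real.log_rpow hH, ← hh] at h5
    have hlogc : Real.log ((badN K M A₀ B₀ : ℕ) : ℝ) = Real.log (6 * M) +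
        Real.log |(discr K : ℝ)| +
          Real.log |((Algebra.norm ℤ (4 * A₀ ^ 3 + 27 * B₀ ^ 2) : ℤ) : ℝ)| := by
      have hd : |(discr K : ℝ)| ≠ 0 := abs_ne_zero.2 (by exact_mod_cast discr_ne_zero K)
      have hn : |((Algebra.norm ℤ (4 * A₀ ^ 3 + 27 * B₀ ^ 2) : ℤ) : ℝ)| ≠ 0 :=
        abs_ne_zero.2 (by exact_mod_cast Algebra.norm_ne_zero_iff.2 hΔ)
      have hM' : (6 * M : ℝ) ≠ 0 := by
        have : (0 : ℝ) < M := by exact_mod_cast hM
        positivity
      rw [← Real.log_mul hM' hd, ← Real.log_mul (mul_ne_zero hM' hd) hn]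
      congr 1
      unfold badN
      push_cast
      rw [Nat.cast_natAbs, Nat.cast_natAbs, Int.cast_abs, Int.cast_abs]
      ring
    rw [hlogc] at hm
    have e : ((g.natDegree : ℝ) - 2 - θ - ε - N / P) * h =
        (g.natDegree - 2 - ε - N / P) * h - θ * h := by ring
    rw [e]
    linarith
  refine ⟨δ, hδ, ⟨_, hone⟩, ?_⟩
  intro hlt K _ _ A₀ B₀ hΔ
  set c₀ := badN K M A₀ B₀ with hc₀
  set η : ℝ := g.natDegree - 2 - θ - ε - N / P with hη
  have hη0 : 0 < η := by rw [hη]; linarith
  set b₁ : ℝ := Real.log |(discr K : ℝ)| +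
    Real.log |((Algebra.norm ℤ (4 * A₀ ^ 3 + 27 * B₀ ^ 2) : ℤ) : ℝ)| +
      (C + Real.log B + Real.log (6 * M)) with hb₁
  have hfin := finite_height (Real.exp (b₁ / η))
  set X : ℝ := 1 + ∑ x ∈ hfin.toFinset,
    Height.mulHeight₁ (((aeval x A / aeval x D : ℚ) : K)) with hX
  have hXpos : ∀ x ∈ hfin.toFinset, 0 ≤ Height.mulHeight₁ (((aeval x A / aeval x D : ℚ) : K)) :=
    fun x _ => by
      have := Height.one_le_mulHeight₁ (((aeval x A / aeval x D : ℚ) : K))
      linarith
  have hX1 : 1 ≤ X := by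
    have := Finset.sum_nonneg hXpos
    rw [hX]
    linarith
  have hcl := classes_finite K (badN_pos (K := K) hM hΔ) (six_badN _ _ _) hP X hX1
  have key : ∀ x : ℚ, IsSparsePoint S l m B θ δ g x →
      ∀ a b : K, IsFibre A D x a b → ∀ n : ℕ, n₀ ≤ n → Congruent n a b (A₀ : K) (B₀ : K) →
      ∃ e ∈ hcl.toFinset, Isomorphic e.1 e.2 a b := by
    intro x hx a b hfib n hn hcong
    have h1 := hone K A₀ B₀ hΔ x hx a b hfib n hn hcong
    have hH : 0 < H x := lt_max_of_lt_right (by exact_mod_cast x.den_pos)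
    have hxm : x ∈ hfin.toFinset := by
      rw [Set.Finite.mem_toFinset]
      show H x ≤ Real.exp (b₁ / η)
      rw [← Real.log_le_iff_le_exp hH, le_div_iff₀ hη0, mul_comm]
      exact h1
    have hiso := rep_iso (a, b)
    have hab := hfib.2.1
    have hab' := iso_disc (iso_symm hiso) hab
    have hcong' := congr_iso hiso hcong
    refine ⟨rep (a, b), ?_, hiso⟩
    rw [Set.Finite.mem_toFinset]
    refine ⟨rep_rep _, ?_, ?_⟩
    · have e : jInvariant (rep (a, b)).1 (rep (a, b)).2 = jInvariant a b :=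
        iso_j (iso_symm hiso)
      rw [e, hfib.2.2]
      have h2 := Finset.single_le_sum hXpos hxm
      rw [hX]
      linarith
    · obtain ⟨f, hf1, hf2, hf3⟩ := hcong'
      exact hall K A₀ B₀ hΔ _ _ hab' n hn f ⟨hf1, hf2, hf3⟩
  refine ⟨⟨hcl.toFinset, key⟩, ?_⟩
  obtain ⟨n₁, hn₁⟩ := levels n₀ (fun a b => ∃ x : ℚ, IsSparsePoint S l m B θ δ g x ∧
    IsFibre A D x a b) hcl.toFinset (fun a b hT n hn hcong => by
      obtain ⟨x, hx, hfib⟩ := hT
      exact key x hx a b hfib n hn hcong)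
  exact ⟨n₁, fun x hx a b hfib n hn hcong => hn₁ a b ⟨x, hx, hfib⟩ n hn hcong⟩

end Pool.Agent.Results.MP_4a0cc8_nt.SparseFibres
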